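import Pool.Agent.Lib.BogSt.Final

/-!
# MP_e962e1_co: the Bogart–Stonesifer question has a negative answer in every rank `n ≥ 6`

For every `n ≥ 6` there is a binary geometry of rank `n` with characteristic polynomial
`(λ-1)(λ-2)⋯(λ-n)` which is not supersolvable; the one of rank `6` (21 points) has no modular
copoint at all. The definitions are those of `Pool/Agent/Lib/MP_e962e1_co/Geom.lean` (Mathlib's
matroids, flats and Moebius function).
-/

set_option autoImplicit false

namespace Pool.Agent.Results.MP_e962e1_co.AllRanks

open Pool.E962e1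

theorem result (n : ℕ) (hn : 6 ≤ n) : ∃ (α : Type) (_ : Finite α) (M : Matroid α),
      IsGeometry M ∧ IsBinary M ∧ rank M M.E = n ∧
      charPoly M = ∏ i ∈ Finset.range n, (Polynomial.X - Polynomial.C ((i : ℤ) + 1)) ∧
      ¬ IsSupersolvable M ∧
      (n = 6 → ∀ F, IsModularFlat M F → rank M F ≠ 5) :=
  BogSt.final n hn

end Pool.Agent.Results.MP_e962e1_co.AllRanks
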